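import Pool.Agent.N483.KM.StmV
import Pool.Agent.R751.MB.Apc

/-!
Project KM, extension V: concentration for block sums, real valued functions.
-/

set_option autoImplicit false

namespace Pool.Agent.N624.KM

open MeasureTheory Set Filter Topology
open scoped ENNReal InnerProductSpace
open Pool.Agent.R754.KG (E un sl Rv)
open Pool.Agent.N483.KM

theorem conv_sum {r B N : ℕ} {k : Fin B → ℕ} (e0 : (∀ i, E (k i)) ≃ₗ[ℝ] E N)
    (V : Fin r → ∀ i, E (k i) → ℝ) (h : ∀ j i, ConvexOn ℝ univ (V j i)) (j : Fin r) :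
    ConvexOn ℝ univ fun z => ∑ i, V j i (e0.symm z i) := by
  refine ⟨convex_univ, fun x _ y _ a b ha hb hab => ?_⟩
  simp only [smul_eq_mul]
  rw [Finset.mul_sum, Finset.mul_sum, ← Finset.sum_add_distrib]
  refine Finset.sum_le_sum fun i _ => ?_
  have h1 := (h j i).2 (mem_univ (e0.symm x i)) (mem_univ (e0.symm y i)) ha hb hab
  have h2 : e0.symm (a • x + b • y) i = a • e0.symm x i + b • e0.symm y i := by
    rw [map_add, map_smul, map_smul]
    rfl
  rw [h2]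
  simpa only [smul_eq_mul] using h1

theorem bdd_sum {r B N : ℕ} {k : Fin B → ℕ} (e0 : (∀ i, E (k i)) ≃ₗ[ℝ] E N)
    (V : Fin r → ∀ i, E (k i) → ℝ) (hr : 1 ≤ r) (h0 : ∀ j i x, 0 ≤ V j i x)
    (hR : ∃ R : ℝ, ∀ j i x, max (‖x‖ - R) 0 ^ 2 ≤ V j i x) (s : Fin r → ℝ) :
    Bornology.IsBounded {z : E N | ∀ j, ∑ i, V j i (e0.symm z i) ≤ s j} := by
  obtain ⟨R, hR⟩ := hR
  let j0 : Fin r := ⟨0, by omega⟩
  let e1 : (∀ i, E (k i)) →L[ℝ] E N := LinearMap.toContinuousLinearMap e0.toLinearMap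
  have hb : Bornology.IsBounded (Metric.closedBall (0 : ∀ i, E (k i)) (max 0 (R + Real.sqrt (s j0)))) :=
    Metric.isBounded_closedBall
  refine (e1.lipschitz.isBounded_image hb).subset ?_
  intro z hz
  refine ⟨e0.symm z, ?_, ?_⟩
  · rw [mem_closedBall_zero_iff, pi_norm_le_iff_of_nonneg (le_max_left _ _)]
    intro i
    have h1 : V j0 i (e0.symm z i) ≤ s j0 :=
      (Finset.single_le_sum (f := fun i => V j0 i (e0.symm z i)) (fun i _ => h0 j0 i _)
        (Finset.mem_univ i)).trans (hz j0)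
    have h2 := (hR j0 i (e0.symm z i)).trans h1
    have h3 : max (‖e0.symm z i‖ - R) 0 ≤ Real.sqrt (s j0) := Real.le_sqrt_of_sq_le h2
    have h4 := (le_max_left (‖e0.symm z i‖ - R) 0).trans h3
    exact le_trans (by linarith) (le_max_right _ _)
  · show e0 (e0.symm z) = z
    exact e0.apply_symm_apply z

/-- VRR -/
theorem t_VRR (h1 : S_VGW) (h2 : S_GIB) : S_VRR := by
  intro r q A δ hA hδ
  obtain ⟨δ', hδ', h3⟩ := h2 r q δ hδ
  obtain ⟨κ', hκ', h4⟩ := Pool.Agent.R751.MB.apc A δ' hA hδ'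
  obtain ⟨κ, hκ, h5⟩ := h3 κ' hκ'
  refine ⟨κ, hκ, ?_⟩
  intro B n N k G ψ e0 V e hn hr hG hconv hnn hR hinv hψ hx
  refine h5 n N ψ (fun j z => ∑ i, V j i (e0.symm z i)) e hn (conv_sum e0 V hconv)
    (fun j z => Finset.sum_nonneg fun i _ => hnn j i _) (bdd_sum e0 V hr hnn hR) hx ?_
  intro l a hl
  have h6 := h1 r q B n N A k G ψ e0 V hA hr hG hconv hnn hR hinv hψ l a hl
  exact ⟨⟨h6.adm.nonneg, h6.adm.int, h6.adm.pos, h6.adm.meas⟩, h4 N _ h6⟩

end Pool.Agent.N624.KM
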